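import Pool.Agent.NBT.StmtsA

/-! Squad NBT (MP_e54c4c_gt), row BIL (helper55): continuity of the subspaces of the faces. -/

set_option autoImplicit false

open Matrix Filter Topology

noncomputable section

namespace Pool.Agent.NBT.H55

open Pool.Agent.PFS Pool.Agent.PFJ Pool.Agent.NBT

theorem bil (ibf : IbfStmt) (ibl : IblStmt) : BilStmt := by
  intro n C Γ Γ₀ K T c hT x w hx hw hlim I
  have hC : PCone C := hT.cc.toPCone
  -- (a)
  have ha : ∀ ψ : ℕ → ℕ, StrictMono ψ → ∃ θ : ℕ → ℕ, StrictMono θ ∧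
      LimS (fun m => BI C (x (ψ (θ m))) I) (BI C w I) := by
    intro ψ hψ
    obtain ⟨θ, L', hθ, hL, hd⟩ := Pool.Agent.PFJ.H69.lsc n fun m => BI C (x (ψ m)) I
    refine ⟨θ, hθ, ?_⟩
    have h1 : IB C w I L' := ibl n C hC K (fun m => x (ψ (θ m))) w I
      (fun m => BI C (x (ψ (θ m))) I) L' (fun m => (hT.pes _ (hx _)).1) (hT.pes _ hw).1
      (fun l => (hlim l).comp (hψ.comp hθ).tendsto_atTop) (fun m => hT.box _ (hx _) I) hL
    have h2 : L' ≤ BI C w I := ((ibf n C hC K w (hT.pes _ hw).1).1 I L' h1).2.1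
    have h3 : Module.finrank ℝ L' = Module.finrank ℝ (BI C w I) := by
      rw [hT.dim _ hw I, ← hd 0]
      exact hT.dim _ (hx _) I
    have h4 := Submodule.eq_of_le_of_finrank_eq h2 h3
    rw [← h4]
    exact hL
  refine ⟨?_, ?_⟩
  · intro v hv
    have hd : Tendsto (fun m => Metric.infDist v (BI C (x m) I : Set (V n))) atTop (𝓝 0) := by
      refine tendsto_of_subseq_tendsto fun ns hns => ?_
      obtain ⟨φ, hφ, hφ'⟩ := strictMono_subseq_of_tendsto_atTop hns
      obtain ⟨θ, hθ, hL⟩ := ha _ hφ'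
      obtain ⟨y, hy, hyl⟩ := hL.1 v hv
      refine ⟨fun m => φ (θ m), ?_⟩
      refine squeeze_zero (fun m => Metric.infDist_nonneg)
        (fun m => Metric.infDist_le_dist_of_mem (hy m)) ?_
      have := (tendsto_iff_dist_tendsto_zero.1 hyl)
      simpa only [dist_comm] using this
    have hz : ∀ m : ℕ, ∃ z ∈ (BI C (x m) I : Set (V n)),
        dist v z < Metric.infDist v (BI C (x m) I : Set (V n)) + 1 / ((m : ℝ) + 1) := fun m =>
      (Metric.infDist_lt_iff ⟨0, Submodule.zero_mem _⟩).1 (lt_add_of_pos_right _ (by positivity))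
    choose z hz1 hz2 using hz
    refine ⟨z, hz1, ?_⟩
    rw [tendsto_iff_dist_tendsto_zero]
    have h5 := hd.add tendsto_one_div_add_atTop_nhds_zero_nat
    rw [add_zero] at h5
    refine squeeze_zero (fun m => dist_nonneg) (fun m => ?_) h5
    rw [dist_comm]
    exact (hz2 m).le
  · intro φ y v hφ hy hyl
    obtain ⟨θ, hθ, hL⟩ := ha φ hφ
    exact hL.2 (fun m => m) (fun m => y (θ m)) v (fun _ _ h => h) (fun m => hy _)
      (hyl.comp hθ.tendsto_atTop)

end Pool.Agent.NBT.H55
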