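import Pool.Agent.NBT.StmtsA

/-! Squad NBT (MP_e54c4c_gt), row PJE (helper55): existence of the projections. -/

set_option autoImplicit false

open Matrix Filter Topology

noncomputable section

namespace Pool.Agent.NBT.H55

open Pool.Agent.PFS Pool.Agent.PFJ Pool.Agent.NBT

theorem pje (zlx : ZlxStmt) : PjeStmt := by
  intro n C Γ Γ₀ K T c hT w hw I
  have hcc : CC C Γ := hT.cc
  have hC : PCone C := hcc.toPCone
  obtain ⟨φ, g, s, W, P, Q, hφ, hg, hs, hZ⟩ := zlx n C Γ Γ₀ K T c hT w hw Iᶜ
    (fun m => (m : ℝ)) tendsto_natCast_atTop_atTop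
  have hgΓ : ∀ m, g m ∈ Γ := fun m => hT.sub (hg m)
  have hwI := hT.pes w hw
  have hWI := hT.pes W hZ.tw
  have hwcl : ∀ i, w i ∈ closure C := hwI.1.cl
  have hWcl : ∀ i, W i ∈ closure C := hWI.1.cl
  have hwC : ∑ i, w i ∈ C := by
    have := hwI.1.pos (fun _ => 1) fun _ => one_pos
    simpa only [one_smul] using this
  have hWC : ∑ i, W i ∈ C := by
    have := hWI.1.pos (fun _ => 1) fun _ => one_pos
    simpa only [one_smul] using this
  have hlimP : ∀ x, Tendsto (fun m => s m • act (g m) x) atTop (𝓝 (P x)) := fun x =>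
    hZ.limP (fun _ => x) x tendsto_const_nhds
  -- values on the vertices
  have hPin : ∀ i ∈ I, P (w i) = W i := by
    intro i hi
    have h1 := hZ.lim i
    have h2 : i ∉ Iᶜ := fun h => (Finset.mem_compl.1 h) hi
    simp only [if_neg h2, one_smul] at h1
    exact tendsto_nhds_unique (hlimP (w i)) h1
  have hPout : ∀ i, i ∉ I → P (w i) = 0 := by
    intro i hi
    have h1 := hZ.lim i
    have h2 : i ∈ Iᶜ := Finset.mem_compl.2 hi
    simp only [if_pos h2] at h1
    have h3 : Tendsto (fun m => Real.exp (-((φ m : ℕ) : ℝ))) atTop (𝓝 0) :=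
      Real.tendsto_exp_neg_atTop_nhds_zero.comp
        (tendsto_natCast_atTop_atTop.comp hφ.tendsto_atTop)
    have h4 := h3.smul h1
    rw [zero_smul] at h4
    refine tendsto_nhds_unique (hlimP (w i)) (h4.congr fun m => ?_)
    rw [CC.act_smul, smul_comm (s m), smul_smul, ← Real.exp_add, neg_add_cancel, Real.exp_zero,
      one_smul]
  have hPI : P (fS w I) = fS W I := by
    unfold fS
    rw [map_sum]
    exact Finset.sum_congr rfl fun i hi => hPin i hi
  have hPIc : P (fS w Iᶜ) = 0 := by
    unfold fS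
    rw [map_sum]
    exact Finset.sum_eq_zero fun i hi => hPout i (Finset.mem_compl.1 hi)
  have hPf : P (∑ i, w i) = fS W I := by
    rw [← fS_add_compl w I, map_add, hPI, hPIc, add_zero]
  have hPpos : ∀ x ∈ closure C, P x ∈ closure C := fun x hx =>
    isClosed_closure.mem_of_tendsto (hlimP x)
      (Eventually.of_forall fun m => (hcc.sact_cl_iff (hgΓ m) (hs m)).2 hx)
  have hPmem : ∀ x, P x ∈ BI C W I := by
    intro x
    obtain ⟨M, _, h1, h2⟩ := absorb_two hC hwC x
    have h3 := hPpos _ (subset_closure h1)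
    have h4 := hPpos _ (subset_closure h2)
    rw [map_sub, map_smul, hPf] at h3
    rw [map_add, map_smul, hPf] at h4
    exact fce hC hWcl h3 h4
  have hinjcl : ∀ y ∈ BI C w I, P y ∈ closure C → y ∈ closure C := by
    have := hZ.injP
    rwa [compl_compl] at this
  have hinj : ∀ y ∈ BI C w I, P y = 0 → y = 0 := by
    intro y hy h0
    refine hC.salient y (hinjcl y hy (by rw [h0]; exact hC.zero_cl)) (hinjcl (-y)
      (Submodule.neg_mem _ hy) (by rw [map_neg, h0, neg_zero]; exact hC.zero_cl))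
  have hmap : (BI C w I).map P = BI C W I := hZ.mapP I (by rw [compl_compl])
  -- the linear equivalence
  let e0 : ↥(BI C w I) →ₗ[ℝ] ↥(BI C W I) :=
    (P.domRestrict (BI C w I)).codRestrict (BI C W I) fun y => hPmem y
  have he0 : ∀ y : ↥(BI C w I), ((e0 y : ↥(BI C W I)) : V n) = P y := fun y => rfl
  have hbij : Function.Bijective e0 := by
    refine ⟨?_, ?_⟩
    · rw [injective_iff_map_eq_zero]
      intro y hy
      have h1 : P (y : V n) = 0 := by rw [← he0, hy]; rfl
      exact Subtype.ext (hinj _ y.2 h1)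
    · intro z
      have h1 : (z : V n) ∈ (BI C w I).map P := by rw [hmap]; exact z.2
      obtain ⟨y, hy, hyz⟩ := h1
      exact ⟨⟨y, hy⟩, Subtype.ext hyz⟩
  let e : ↥(BI C w I) ≃ₗ[ℝ] ↥(BI C W I) := LinearEquiv.ofBijective e0 hbij
  let P' : V n →ₗ[ℝ] ↥(BI C W I) := P.codRestrict (BI C W I) hPmem
  let p : V n →ₗ[ℝ] V n := (BI C w I).subtype ∘ₗ (e.symm : ↥(BI C W I) →ₗ[ℝ] ↥(BI C w I)) ∘ₗ P'
  have hpmem : ∀ x, p x ∈ BI C w I := fun x => (e.symm (P' x)).2
  have hPp : ∀ x, P (p x) = P x := by
    intro x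
    have h1 : e (e.symm (P' x)) = P' x := e.apply_symm_apply _
    have h2 := congrArg (fun z : ↥(BI C W I) => (z : V n)) h1
    exact h2
  have hpz : ∀ x, p x = 0 ↔ P x = 0 := by
    intro x
    constructor
    · intro h
      rw [← hPp, h, map_zero]
    · intro h
      exact hinj _ (hpmem x) (by rw [hPp, h])
  refine ⟨p, hpmem, ?_, ?_, ?_⟩
  · intro y hy
    have h1 : p y - y = 0 := hinj _ (Submodule.sub_mem _ (hpmem y) hy)
      (by rw [map_sub, hPp, sub_self])
    exact sub_eq_zero.1 h1
  · intro x hx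
    exact hinjcl _ (hpmem x) (by rw [hPp]; exact hPpos x hx)
  · intro x
    rw [hpz]
    constructor
    · intro h0 x0 hx0 τ hτ
      obtain ⟨M, hM, hM'⟩ := hC.absorb hx0 (∑ i, w i)
      have hδ : 0 < τ / M := div_pos hτ hM
      have h1 : τ • x0 - (τ / M) • ∑ i, w i ∈ closure C := by
        have h2 := hC.cl_smul (subset_closure hM') hδ.le
        rw [smul_sub, smul_smul, div_mul_cancel₀ _ hM.ne'] at h2
        exact h2
      -- the moving point
      obtain ⟨q, hq⟩ : ∃ q : ℕ → V n, q = fun m =>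
        ∑ i, (if i ∈ Iᶜ then Real.exp ((φ m : ℕ) : ℝ) else 1) • w i := ⟨_, rfl⟩
      have hqs : ∀ m, q m = fS w I + Real.exp ((φ m : ℕ) : ℝ) • fS w Iᶜ := by
        intro m
        rw [hq]
        show ∑ i, (if i ∈ Iᶜ then Real.exp ((φ m : ℕ) : ℝ) else 1) • w i = _
        rw [← Finset.sum_add_sum_compl I]
        congr 1
        · refine Finset.sum_congr rfl fun i hi => ?_
          rw [if_neg fun h => (Finset.mem_compl.1 h) hi, one_smul]
        · unfold fS
          rw [Finset.smul_sum]
          refine Finset.sum_congr rfl fun i hi => ?_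
          rw [if_pos hi]
      have hql : Tendsto (fun m => s m • act (g m) (q m)) atTop (𝓝 (∑ i, W i)) := by
        have h3 : Tendsto (fun m => ∑ i, s m • act (g m)
            ((if i ∈ Iᶜ then Real.exp ((φ m : ℕ) : ℝ) else 1) • w i)) atTop (𝓝 (∑ i, W i)) :=
          tendsto_finsetSum _ fun i _ => hZ.lim i
        refine h3.congr fun m => ?_
        rw [hq, CC.act_sum, Finset.smul_sum]
      have hlx : Tendsto (fun m => s m • act (g m) x) atTop (𝓝 0) := by
        have := hlimP x
        rwa [h0] at this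
      have hδC : (τ / M) • ∑ i, W i ∈ C := hC.smul _ hWC _ hδ
      have hm1 : Tendsto (fun m => s m • act (g m) ((τ / M) • q m - x)) atTop
          (𝓝 ((τ / M) • ∑ i, W i)) := by
        have h3 := (hql.const_smul (τ / M)).sub hlx
        rw [sub_zero] at h3
        refine h3.congr fun m => ?_
        rw [CC.act_sub, CC.act_smul, smul_sub, smul_comm (s m)]
      have hm2 : Tendsto (fun m => s m • act (g m) ((τ / M) • q m + x)) atTop
          (𝓝 ((τ / M) • ∑ i, W i)) := by
        have h3 := (hql.const_smul (τ / M)).add hlx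
        rw [add_zero] at h3
        refine h3.congr fun m => ?_
        rw [CC.act_add, CC.act_smul, smul_add, smul_comm (s m)]
      obtain ⟨m, h5, h6⟩ := ((hm1.eventually (hC.isOpen.mem_nhds hδC)).and
        (hm2.eventually (hC.isOpen.mem_nhds hδC))).exists
      have h7 : (τ / M) • q m - x ∈ closure C :=
        subset_closure ((hcc.sact_mem_iff (hgΓ m) (hs m)).1 h5)
      have h8 : (τ / M) • q m + x ∈ closure C :=
        subset_closure ((hcc.sact_mem_iff (hgΓ m) (hs m)).1 h6)
      have h9 : (τ • x0 - (τ / M) • ∑ i, w i) + (τ / M) • fS w Iᶜ ∈ closure C :=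
        hC.cl_add h1 (hC.cl_smul (fS_cl hC hwcl _) hδ.le)
      refine ⟨τ / M * Real.exp ((φ m : ℕ) : ℝ), mul_pos hδ (Real.exp_pos _), ?_, ?_⟩
      · have h10 := hC.cl_add h7 h9
        have h11 : (τ / M) • q m - x + ((τ • x0 - (τ / M) • ∑ i, w i) + (τ / M) • fS w Iᶜ) =
            (τ / M * Real.exp ((φ m : ℕ) : ℝ)) • fS w Iᶜ + τ • x0 - x := by
          rw [hqs, ← fS_add_compl w I, smul_add, smul_add, smul_smul]
          abel
        rwa [h11] at h10
      · have h10 := hC.cl_add h8 h9
        have h11 : (τ / M) • q m + x + ((τ • x0 - (τ / M) • ∑ i, w i) + (τ / M) • fS w Iᶜ) =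
            (τ / M * Real.exp ((φ m : ℕ) : ℝ)) • fS w Iᶜ + τ • x0 + x := by
          rw [hqs, ← fS_add_compl w I, smul_add, smul_add, smul_smul]
          abel
        rwa [h11] at h10
    · intro hS
      have h1 : ∀ τ : ℝ, 0 < τ → -(P x) + τ • fS W I ∈ closure C ∧
          P x + τ • fS W I ∈ closure C := by
        intro τ hτ
        obtain ⟨κ, _, h2, h3⟩ := hS _ hwC τ hτ
        have h4 := hPpos _ h2
        have h5 := hPpos _ h3
        rw [map_sub, map_add, map_smul, map_smul, hPIc, smul_zero, zero_add, hPf] at h4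
        rw [map_add, map_add, map_smul, map_smul, hPIc, smul_zero, zero_add, hPf] at h5
        refine ⟨?_, ?_⟩
        · have e1 : -(P x) + τ • fS W I = τ • fS W I - P x := by abel
          rw [e1]; exact h4
        · rw [add_comm]; exact h5
      exact hC.salient _ (cl_of_eps fun τ hτ => (h1 τ hτ).2) (cl_of_eps fun τ hτ => (h1 τ hτ).1)

end Pool.Agent.NBT.H55
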